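import Pool.Agent.Lib.LS.All
import Pool.Agent.Lib.MP_791321_mp.FDom

set_option autoImplicit false

open Filter Pool.Agent.Lib.MP_791321_mp
open scoped ENNReal

namespace Pool.Agent.Results.MP_791321_mp.BindingFormDomain

/-- For every `N ≥ 2` and every fixed coupling `α > 0`, once the cutoff `Λ` is large enough, `N`
spin-1/2 fermions bind in the infinite-volume limit:
`limsup_{L→∞} E₀(N) < N · liminf_{L→∞} E₀(1)`, for any choice of polarisation vectors, the
infima being taken over the whole form domain. -/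
theorem result (N : ℕ) (hN : 2 ≤ N) (α : ℝ) (hα : 0 < α) :
    ∃ Λ₀ : ℝ, 0 < Λ₀ ∧ ∀ Λ : ℝ, Λ₀ ≤ Λ →
      ∀ ε : ℝ → V3 → Fin 2 → V3, (∀ L, IsPolarisation (ε L)) →
        limsup (fun L : ℝ => E0F N α Λ L (ε L)) atTop <
          (N : ℝ≥0∞) * liminf (fun L : ℝ => E0F 1 α Λ L (ε L)) atTop := by
  obtain ⟨Λ₀, h⟩ := Pool.Agent.Lib.LS.bind N hN α hα
  exact ⟨max Λ₀ 1, lt_max_of_lt_right one_pos, fun Λ hΛ ε hε =>
    F24.transfer (by omega) (h Λ (le_of_max_le_left hΛ) ε hε)⟩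

end Pool.Agent.Results.MP_791321_mp.BindingFormDomain
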