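import Pool.Agent.Lib.MP_791321_mp.Main

set_option autoImplicit false

open Filter Pool.Agent.Lib.MP_791321_mp

namespace Pool.Agent.Results.MP_791321_mp.FermionsBind

/-- For every `N ≥ 2` and every cutoff `Λ > 0`, once the coupling `α` is large enough, `N`
spin-1/2 fermions bind in the infinite-volume limit:
`limsup_{L→∞} E₀(N) < N · liminf_{L→∞} E₀(1)`, for any choice of polarisation vectors. -/
theorem result (N : ℕ) (hN : 2 ≤ N) (Λ : ℝ) (hΛ : 0 < Λ) :
    ∃ α₀ : ℝ, 0 < α₀ ∧ ∀ α : ℝ, α₀ ≤ α →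
      ∀ ε : ℝ → V3 → Fin 2 → V3, (∀ L, IsPolarisation (ε L)) →
        limsup (fun L : ℝ => E0 N α Λ L (ε L)) atTop <
          (N : EReal) * liminf (fun L : ℝ => E0 1 α Λ L (ε L)) atTop := by
  obtain ⟨α₀, h0, h⟩ := binding N hN Λ hΛ
  refine ⟨α₀, h0, fun α hα ε hε => ?_⟩
  obtain ⟨a, b, hab, h1⟩ := h α hα
  have h2 := h1 ε hε
  have h3 : limsup (fun L : ℝ => E0 N α Λ L (ε L)) atTop ≤ (a : EReal) :=
    limsup_le_of_le (h := h2.mono fun _ h => h.1)
  have h4 : (b : EReal) ≤ liminf (fun L : ℝ => E0 1 α Λ L (ε L)) atTop :=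
    le_liminf_of_le (h := h2.mono fun _ h => h.2)
  calc _ ≤ (a : EReal) := h3
    _ < ((N * b : ℝ) : EReal) := EReal.coe_lt_coe_iff.mpr hab
    _ = (N : EReal) * (b : EReal) := by rw [EReal.coe_mul]; rfl
    _ ≤ _ := mul_le_mul_of_nonneg_left h4 (Nat.cast_nonneg' N)

/-- The polarisation hypothesis can be met. -/
theorem exists_polarisation : ∃ ε : V3 → Fin 2 → V3, IsPolarisation ε := by
  have h : ∀ k : V3, ∃ e : Fin 2 → V3, k ≠ 0 → Orthonormal ℝ e ∧ ∀ μ, inner ℝ (e μ) k = 0 := by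
    intro k
    by_cases hk : k = 0
    · exact ⟨0, fun h => absurd hk h⟩
    · have : Fact (Module.finrank ℝ V3 = 2 + 1) := ⟨by simp⟩
      let b := OrthonormalBasis.fromOrthogonalSpanSingleton (𝕜 := ℝ) 2 hk
      refine ⟨fun μ => b μ, fun _ => ⟨?_, fun μ => ?_⟩⟩
      · exact (Submodule.subtypeₗᵢ _).orthonormal_comp_iff.mpr b.orthonormal
      · exact Submodule.mem_orthogonal_singleton_iff_inner_left.mp (b μ).2
  choose ε hε using h
  exact ⟨ε, hε⟩

end Pool.Agent.Results.MP_791321_mp.FermionsBind
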