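import Pool.Agent.Lib.LS.All

set_option autoImplicit false

open Filter Pool.Agent.Lib.MP_791321_mp Pool.Agent.Lib.LS

namespace Pool.Agent.Results.MP_791321_mp.SharpSelfEnergy

/-- For every fixed coupling `α > 0` the one-particle ground state energy satisfies
`E₀(1) = (1 + o(1)) F₁ (6π²)^(-4/7) α^(2/7) Λ^(12/7)` as `Λ → ∞`, in the infinite-volume limit,
where `F₁ > 0` is the infimum of `(1/2)∫|∇u|² + ∫u` over normalised non-negative test functions. -/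
theorem result :
    0 < F1 ∧ ∀ α δ : ℝ, 0 < α → 0 < δ → ∃ Λ₀ : ℝ, 0 < Λ₀ ∧ ∀ Λ : ℝ, Λ₀ ≤ Λ →
      ∀ ε : ℝ → V3 → Fin 2 → V3, (∀ L, IsPolarisation (ε L)) →
        (((1 - δ) * (F1 * (6 * Real.pi ^ 2) ^ (-4 / 7 : ℝ) * α ^ (2 / 7 : ℝ) *
            Λ ^ (12 / 7 : ℝ)) : ℝ) : EReal) ≤ liminf (fun L : ℝ => E0 1 α Λ L (ε L)) atTop ∧
        limsup (fun L : ℝ => E0 1 α Λ L (ε L)) atTop ≤
          (((1 + δ) * (F1 * (6 * Real.pi ^ 2) ^ (-4 / 7 : ℝ) * α ^ (2 / 7 : ℝ) *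
            Λ ^ (12 / 7 : ℝ)) : ℝ) : EReal) := by
  refine ⟨sharp.1, fun α δ hα hδ => ?_⟩
  obtain ⟨Λ₀, h⟩ := sharp.2 α δ hα hδ
  refine ⟨max Λ₀ 1, lt_max_of_lt_right one_pos, fun Λ hΛ ε hε => ?_⟩
  have hΛ0 : 0 < Λ := lt_of_lt_of_le (lt_max_of_lt_right one_pos) hΛ
  have hp : 0 < 6 * Real.pi ^ 2 := by have := Real.pi_pos; positivity
  have e : (√α * Λ ^ 3 / (6 * Real.pi ^ 2)) ^ (4 / 7 : ℝ) =
      (6 * Real.pi ^ 2) ^ (-4 / 7 : ℝ) * α ^ (2 / 7 : ℝ) * Λ ^ (12 / 7 : ℝ) := by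
    rw [Real.div_rpow (by positivity) hp.le, Real.mul_rpow (by positivity) (by positivity),
      Real.sqrt_eq_rpow, ← Real.rpow_mul hα.le, ← Real.rpow_natCast Λ 3, ← Real.rpow_mul hΛ0.le,
      neg_div, Real.rpow_neg hp.le]
    norm_num
    ring
  have h1 := h Λ (le_of_max_le_left hΛ) ε hε
  rw [e] at h1
  simpa only [mul_assoc] using h1

end Pool.Agent.Results.MP_791321_mp.SharpSelfEnergy
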